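import Pool.Agent.H73.KG.Stmts

/-!
# Project KG, module RGC: calculus of regular functions
-/

set_option autoImplicit false
set_option linter.unusedSectionVars false

open MeasureTheory Set Filter Topology
open scoped ContDiff

namespace Pool.Agent.H73.KG

open Pool.Agent.H84 Pool.Agent.H84.Sym Pool.Agent.H84.Sym.P2x Pool.Agent.H19.KL

section gen

variable {E : Type} [NormedAddCommGroup E] [InnerProductSpace ℝ E]

/-- the open set -/
def RGC_O (E : Type) : Set (ℝ × E) := Ioi 0 ×ˢ univ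

theorem RGC_open : IsOpen (RGC_O E) := isOpen_Ioi.prod isOpen_univ

theorem RGC_mem {s : ℝ} {θ : E} (hs : 0 < s) : (s, θ) ∈ RGC_O E := ⟨hs, mem_univ _⟩

theorem RGC_at {G : ℝ → E → ℝ} (h : ContDiffOn ℝ 2 (Function.uncurry G) (RGC_O E)) {s : ℝ}
    (hs : 0 < s) (θ : E) : ContDiffAt ℝ 2 (Function.uncurry G) (s, θ) :=
  h.contDiffAt (RGC_open.mem_nhds (RGC_mem hs))

theorem RGC_within {F : ℝ × E → ℝ} {s : ℝ} {θ : E} (hs : 0 < s) (k : ℕ) :
    iteratedFDerivWithin ℝ k F (RGC_O E) (s, θ) = iteratedFDeriv ℝ k F (s, θ) :=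
  iteratedFDerivWithin_of_isOpen k RGC_open (RGC_mem hs)

/-- growth bounds may be increased -/
theorem RGC_exp {A B A' B' x r : ℝ} (hA : A ≤ A') (hA' : 0 ≤ A') (hB : B ≤ B') (hr : 0 ≤ r)
    (h : x ≤ A * Real.exp (B * r)) : x ≤ A' * Real.exp (B' * r) :=
  h.trans ((mul_le_mul_of_nonneg_right hA (Real.exp_pos _).le).trans
    (mul_le_mul_of_nonneg_left (Real.exp_le_exp.2 (mul_le_mul_of_nonneg_right hB hr)) hA'))

/-- a normal form of the growth condition -/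
theorem RGC_growth {G : ℝ → E → ℝ}
    (h : ∀ S : ℝ, ∃ A B : ℝ, ∀ k ≤ 2, ∀ s ∈ Ioc 0 S, ∀ θ : E,
      ‖iteratedFDeriv ℝ k (Function.uncurry G) (s, θ)‖ ≤ A * Real.exp (B * ‖θ‖)) (S : ℝ) :
    ∃ A B : ℝ, 0 ≤ A ∧ 0 ≤ B ∧ ∀ k ≤ 2, ∀ s ∈ Ioc 0 S, ∀ θ : E,
      ‖iteratedFDeriv ℝ k (Function.uncurry G) (s, θ)‖ ≤ A * Real.exp (B * ‖θ‖) := by
  obtain ⟨A, B, hAB⟩ := h S
  exact ⟨|A|, |B|, abs_nonneg _, abs_nonneg _, fun k hk s hs θ =>
    RGC_exp (le_abs_self _) (abs_nonneg _) (le_abs_self _) (norm_nonneg _) (hAB k hk s hs θ)⟩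

theorem RGC_add_growth {F G : ℝ → E → ℝ} (hF : ContDiffOn ℝ 2 (Function.uncurry F) (RGC_O E))
    (hG : ContDiffOn ℝ 2 (Function.uncurry G) (RGC_O E)) {k : ℕ} (hk : k ≤ 2) {s : ℝ}
    (hs : 0 < s) (θ : E) {A B A' B' : ℝ} (hA : 0 ≤ A) (hB : 0 ≤ B) (hA' : 0 ≤ A') (hB' : 0 ≤ B')
    (h1 : ‖iteratedFDeriv ℝ k (Function.uncurry F) (s, θ)‖ ≤ A * Real.exp (B * ‖θ‖))
    (h2 : ‖iteratedFDeriv ℝ k (Function.uncurry G) (s, θ)‖ ≤ A' * Real.exp (B' * ‖θ‖)) :
    ‖iteratedFDeriv ℝ k (Function.uncurry fun s θ => F s θ + G s θ) (s, θ)‖ ≤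
      (A + A') * Real.exp ((B + B') * ‖θ‖) := by
  have hk' : (k : WithTop ℕ∞) ≤ 2 := by exact_mod_cast hk
  have h3 : iteratedFDeriv ℝ k (Function.uncurry fun s θ => F s θ + G s θ) (s, θ) =
      iteratedFDeriv ℝ k (Function.uncurry F) (s, θ) +
        iteratedFDeriv ℝ k (Function.uncurry G) (s, θ) :=
    iteratedFDeriv_add_apply ((RGC_at hF hs θ).of_le hk') ((RGC_at hG hs θ).of_le hk')
  rw [h3, add_mul]
  refine (norm_add_le _ _).trans (add_le_add ?_ ?_)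
  · exact RGC_exp le_rfl hA (by linarith) (norm_nonneg _) h1
  · exact RGC_exp le_rfl hA' (by linarith) (norm_nonneg _) h2

theorem RGC_mul_growth {F G : ℝ → E → ℝ} (hF : ContDiffOn ℝ 2 (Function.uncurry F) (RGC_O E))
    (hG : ContDiffOn ℝ 2 (Function.uncurry G) (RGC_O E)) {k : ℕ} (hk : k ≤ 2) {s : ℝ}
    (hs : 0 < s) (θ : E) {A B A' B' : ℝ} (hA : 0 ≤ A) (hA' : 0 ≤ A')
    (h1 : ∀ k ≤ 2, ‖iteratedFDeriv ℝ k (Function.uncurry F) (s, θ)‖ ≤ A * Real.exp (B * ‖θ‖))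
    (h2 : ∀ k ≤ 2, ‖iteratedFDeriv ℝ k (Function.uncurry G) (s, θ)‖ ≤
      A' * Real.exp (B' * ‖θ‖)) :
    ‖iteratedFDeriv ℝ k (Function.uncurry fun s θ => F s θ * G s θ) (s, θ)‖ ≤
      (4 * (A * A')) * Real.exp ((B + B') * ‖θ‖) := by
  have hk' : (k : WithTop ℕ∞) ≤ 2 := by exact_mod_cast hk
  have h3 := norm_iteratedFDerivWithin_mul_le hF hG RGC_open.uniqueDiffOn (RGC_mem (θ := θ) hs) hk'
  rw [RGC_within hs] at h3
  refine h3.trans ?_
  have h4 : ∀ i ∈ Finset.range (k + 1), (k.choose i : ℝ) *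
      ‖iteratedFDerivWithin ℝ i (Function.uncurry F) (RGC_O E) (s, θ)‖ *
        ‖iteratedFDerivWithin ℝ (k - i) (Function.uncurry G) (RGC_O E) (s, θ)‖ ≤
      (k.choose i : ℝ) * ((A * A') * Real.exp ((B + B') * ‖θ‖)) := by
    intro i hi
    have hi' : i ≤ 2 := by
      have := Finset.mem_range.1 hi
      omega
    rw [RGC_within hs, RGC_within hs, mul_assoc]
    refine mul_le_mul_of_nonneg_left ?_ (Nat.cast_nonneg _)
    calc ‖iteratedFDeriv ℝ i (Function.uncurry F) (s, θ)‖ *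
          ‖iteratedFDeriv ℝ (k - i) (Function.uncurry G) (s, θ)‖ ≤
        (A * Real.exp (B * ‖θ‖)) * (A' * Real.exp (B' * ‖θ‖)) :=
          mul_le_mul (h1 i hi') (h2 (k - i) (by omega)) (norm_nonneg _)
            (mul_nonneg hA (Real.exp_pos _).le)
      _ = (A * A') * Real.exp ((B + B') * ‖θ‖) := by
        rw [add_mul, Real.exp_add]
        ring
  refine (Finset.sum_le_sum h4).trans ?_
  rw [← Finset.sum_mul]
  have h5 : ∑ i ∈ Finset.range (k + 1), (k.choose i : ℝ) ≤ 4 := by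
    have : ∑ i ∈ Finset.range (k + 1), k.choose i = 2 ^ k := Nat.sum_range_choose k
    have h6 : (2:ℕ) ^ k ≤ 2 ^ 2 := Nat.pow_le_pow_right (by norm_num) hk
    have h7 : ((∑ i ∈ Finset.range (k + 1), k.choose i : ℕ) : ℝ) ≤ 4 := by
      rw [this]
      exact_mod_cast h6
    push_cast at h7
    exact h7
  calc (∑ i ∈ Finset.range (k + 1), (k.choose i : ℝ)) * ((A * A') * Real.exp ((B + B') * ‖θ‖)) ≤
      4 * ((A * A') * Real.exp ((B + B') * ‖θ‖)) :=
        mul_le_mul_of_nonneg_right h5 (mul_nonneg (mul_nonneg hA hA') (Real.exp_pos _).le)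
    _ = (4 * (A * A')) * Real.exp ((B + B') * ‖θ‖) := by ring

/-- the derivatives of the inverse -/
theorem RGC_inv_bound {i : ℕ} (hi : i ≤ 2) {y : ℝ} (hy : 1 ≤ y) :
    ‖iteratedFDeriv ℝ i (fun x : ℝ => x⁻¹) y‖ ≤ 2 := by
  rw [norm_iteratedFDeriv_eq_norm_iteratedDeriv, iteratedDeriv_eq_iterate]
  have h1 : deriv^[i] (fun x : ℝ => x⁻¹) y = (-1) ^ i * (i.factorial : ℝ) * y ^ (-1 - i : ℤ) :=
    iter_deriv_inv i y
  rw [h1, norm_mul, norm_mul, norm_pow, norm_neg, norm_one, one_pow, one_mul]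
  have h2 : ‖(i.factorial : ℝ)‖ ≤ 2 := by
    rw [Real.norm_eq_abs, abs_of_nonneg (Nat.cast_nonneg _)]
    have : i.factorial ≤ Nat.factorial 2 := Nat.factorial_le hi
    exact_mod_cast this
  have h3 : ‖y ^ (-1 - i : ℤ)‖ ≤ 1 := by
    have hy0 : 0 < y := by linarith
    rw [Real.norm_eq_abs, abs_of_nonneg (zpow_nonneg hy0.le _)]
    have h4 : (-1 - i : ℤ) = -((1 + i : ℕ) : ℤ) := by push_cast; ring
    rw [h4, zpow_neg, zpow_natCast]
    exact inv_le_one_of_one_le₀ (one_le_pow₀ hy)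
  calc ‖(i.factorial : ℝ)‖ * ‖y ^ (-1 - i : ℤ)‖ ≤ 2 * 1 :=
        mul_le_mul h2 h3 (norm_nonneg _) (by norm_num)
    _ = 2 := by norm_num

theorem RGC_inv_growth {F : ℝ → E → ℝ} (hF : ContDiffOn ℝ 2 (Function.uncurry F) (RGC_O E))
    (h0 : ∀ s θ, 0 ≤ s → 1 ≤ F s θ) {k : ℕ} (hk : k ≤ 2) {s : ℝ}
    (hs : 0 < s) (θ : E) {A B : ℝ} (hA : 0 ≤ A) (hB : 0 ≤ B)
    (h1 : ∀ k ≤ 2, ‖iteratedFDeriv ℝ k (Function.uncurry F) (s, θ)‖ ≤ A * Real.exp (B * ‖θ‖)) :
    ‖iteratedFDeriv ℝ k (Function.uncurry fun s θ => (F s θ)⁻¹) (s, θ)‖ ≤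
      (4 * (1 + A) ^ 2) * Real.exp ((2 * B) * ‖θ‖) := by
  have hk' : (k : WithTop ℕ∞) ≤ 2 := by exact_mod_cast hk
  set D := (1 + A) * Real.exp (B * ‖θ‖) with hD
  have hexp : 1 ≤ Real.exp (B * ‖θ‖) := Real.one_le_exp (mul_nonneg hB (norm_nonneg _))
  have hD1 : 1 ≤ D := by
    rw [hD]
    calc (1:ℝ) = 1 * 1 := (mul_one _).symm
      _ ≤ (1 + A) * Real.exp (B * ‖θ‖) :=
        mul_le_mul (by linarith) hexp zero_le_one (by linarith)
  have hinv : ContDiffOn ℝ 2 (fun x : ℝ => x⁻¹) (Ioi (0:ℝ)) := by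
    intro x hx
    exact (contDiffAt_inv ℝ (ne_of_gt hx)).contDiffWithinAt
  have h2 := norm_iteratedFDerivWithin_comp_le (g := fun x : ℝ => x⁻¹)
    (f := Function.uncurry F) (n := k) (s := RGC_O E) (t := Ioi (0:ℝ)) (x := (s, θ)) (C := 2)
    (D := D) hinv hF hk' isOpen_Ioi.uniqueDiffOn RGC_open.uniqueDiffOn
    (fun p hp => lt_of_lt_of_le zero_lt_one (h0 p.1 p.2 (le_of_lt hp.1))) (RGC_mem hs)
    (fun i hi => by
      rw [iteratedFDerivWithin_of_isOpen i isOpen_Ioi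
        (show Function.uncurry F (s, θ) ∈ Ioi (0:ℝ) from
          lt_of_lt_of_le zero_lt_one (h0 s θ hs.le))]
      exact RGC_inv_bound (hi.trans hk) (h0 s θ hs.le))
    (fun i hi1 hi => by
      rw [RGC_within hs]
      refine (h1 i (hi.trans hk)).trans ?_
      have h3 : A * Real.exp (B * ‖θ‖) ≤ D := by
        rw [hD]
        exact mul_le_mul_of_nonneg_right (by linarith) (Real.exp_pos _).le
      exact h3.trans (le_self_pow₀ hD1 (by omega)))
  rw [RGC_within hs] at h2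
  have h3 : Function.uncurry (fun s θ => (F s θ)⁻¹) = (fun x : ℝ => x⁻¹) ∘ Function.uncurry F := by
    funext p
    rfl
  rw [h3]
  refine h2.trans ?_
  have h4 : ((k.factorial : ℕ) : ℝ) ≤ 2 := by
    have : k.factorial ≤ Nat.factorial 2 := Nat.factorial_le hk
    exact_mod_cast this
  have h5 : D ^ k ≤ D ^ 2 := pow_le_pow_right₀ hD1 hk
  have hD0 : 0 ≤ D := by linarith
  calc ((k.factorial : ℕ) : ℝ) * 2 * D ^ k ≤ 2 * 2 * D ^ 2 :=
        mul_le_mul (mul_le_mul_of_nonneg_right h4 (by norm_num)) h5 (pow_nonneg hD0 _)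
          (by norm_num)
    _ = (4 * (1 + A) ^ 2) * Real.exp ((2 * B) * ‖θ‖) := by
      have h6 : Real.exp ((2 * B) * ‖θ‖) = Real.exp (B * ‖θ‖) ^ 2 := by
        rw [← Real.exp_nat_mul]
        congr 1
        push_cast
        ring
      rw [hD, h6]
      ring

end gen

section calcu

variable {E : Type} [NormedAddCommGroup E] [InnerProductSpace ℝ E]

theorem RGC_slice {G : ℝ → E → ℝ} (h : ContDiffOn ℝ 2 (Function.uncurry G) (RGC_O E)) {s : ℝ}
    (hs : 0 < s) : ContDiff ℝ 2 (G s) := by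
  rw [contDiff_iff_contDiffAt]
  intro θ
  have h1 : ContDiffAt ℝ 2 (fun θ : E => (s, θ)) θ := contDiffAt_const.prodMk contDiffAt_id
  exact (RGC_at h hs θ).comp θ h1

theorem RGC_slice_t {G : ℝ → E → ℝ} (h : ContDiffOn ℝ 2 (Function.uncurry G) (RGC_O E)) {s : ℝ}
    (hs : 0 < s) (θ : E) : DifferentiableAt ℝ (fun r => G r θ) s := by
  have h1 : ContDiffAt ℝ 2 (fun r : ℝ => (r, θ)) s := contDiffAt_id.prodMk contDiffAt_const
  exact ((RGC_at h hs θ).comp s h1).differentiableAt (by norm_num)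

theorem RGC_D {G : ℝ → E → ℝ} (h : ContDiffOn ℝ 2 (Function.uncurry G) (RGC_O E)) {s : ℝ}
    (hs : 0 < s) (θ : E) (e : E) :
    D e (G s) θ = fderiv ℝ (Function.uncurry G) (s, θ) (0, e) := by
  have h1 : HasFDerivAt (fun θ : E => (s, θ)) (ContinuousLinearMap.inr ℝ ℝ E) θ :=
    hasFDerivAt_prodMk_right s θ
  have h2 := ((RGC_at h hs θ).differentiableAt (by norm_num)).hasFDerivAt
  have h3 : HasFDerivAt (G s) ((fderiv ℝ (Function.uncurry G) (s, θ)).comp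
      (ContinuousLinearMap.inr ℝ ℝ E)) θ := h2.comp θ h1
  unfold D
  rw [h3.fderiv]
  rfl

theorem RGC_fderiv_le {G : ℝ → E → ℝ} (h : ContDiffOn ℝ 2 (Function.uncurry G) (RGC_O E)) {s : ℝ}
    (hs : 0 < s) (θ : E) :
    ‖fderiv ℝ (G s) θ‖ ≤ ‖fderiv ℝ (Function.uncurry G) (s, θ)‖ := by
  refine ContinuousLinearMap.opNorm_le_bound _ (by positivity) fun e => ?_
  have h1 : fderiv ℝ (G s) θ e = fderiv ℝ (Function.uncurry G) (s, θ) (0, e) := RGC_D h hs θ e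
  rw [h1]
  refine (ContinuousLinearMap.le_opNorm _ _).trans ?_
  rw [Prod.norm_def]
  simp

theorem RGC_DD {G : ℝ → E → ℝ} (h : ContDiffOn ℝ 2 (Function.uncurry G) (RGC_O E)) {s : ℝ}
    (hs : 0 < s) (θ : E) (e : E) :
    D e (D e (G s)) θ = fderiv ℝ (fderiv ℝ (Function.uncurry G)) (s, θ) (0, e) (0, e) := by
  have h1 : HasFDerivAt (fun θ : E => (s, θ)) (ContinuousLinearMap.inr ℝ ℝ E) θ :=
    hasFDerivAt_prodMk_right s θ
  have h2 : DifferentiableAt ℝ (fderiv ℝ (Function.uncurry G)) (s, θ) :=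
    ((RGC_at h hs θ).fderiv_right (m := 1) (by norm_num)).differentiableAt (by norm_num)
  have h3 : HasFDerivAt (fun θ : E => fderiv ℝ (Function.uncurry G) (s, θ))
      ((fderiv ℝ (fderiv ℝ (Function.uncurry G)) (s, θ)).comp
      (ContinuousLinearMap.inr ℝ ℝ E)) θ := HasFDerivAt.comp
        (g := fderiv ℝ (Function.uncurry G)) θ h2.hasFDerivAt h1
  have h4 : D e (G s) = fun θ => fderiv ℝ (Function.uncurry G) (s, θ) (0, e) :=
    funext fun θ => RGC_D h hs θ e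
  have h5 : HasFDerivAt (fun θ : E => fderiv ℝ (Function.uncurry G) (s, θ) ((0 : ℝ), e))
      (((fderiv ℝ (fderiv ℝ (Function.uncurry G)) (s, θ)).comp
      (ContinuousLinearMap.inr ℝ ℝ E)).flip ((0 : ℝ), e)) θ := by
    have h6 := h3.clm_apply (hasFDerivAt_const ((0 : ℝ), e) θ)
    simpa using h6
  rw [h4]
  unfold D
  rw [h5.fderiv]
  rfl

theorem RGC_DD_cont {G : ℝ → E → ℝ} (h : ContDiffOn ℝ 2 (Function.uncurry G) (RGC_O E)) {s : ℝ}
    (hs : 0 < s) (e : E) : Continuous fun θ => D e (D e (G s)) θ := by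
  have h1 := RGC_slice h hs
  have h2 : ContDiff ℝ 1 (fderiv ℝ (G s)) := h1.fderiv_right (by norm_num)
  have h3 : ContDiff ℝ 1 (D e (G s)) := h2.clm_apply contDiff_const
  have h4 : Continuous (fderiv ℝ (D e (G s))) := h3.continuous_fderiv (by norm_num)
  exact h4.clm_apply continuous_const

theorem RGC_D_add {f g : E → ℝ} (hf : ContDiff ℝ 2 f) (hg : ContDiff ℝ 2 g) (e : E) :
    D e (fun θ => f θ + g θ) = fun θ => D e f θ + D e g θ := by
  funext θ
  unfold D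
  rw [fderiv_fun_add (hf.differentiable (by norm_num) θ) (hg.differentiable (by norm_num) θ)]
  rfl

theorem RGC_D_add' {f g : E → ℝ} (hf : ContDiff ℝ 1 f) (hg : ContDiff ℝ 1 g) (e : E) :
    D e (fun θ => f θ + g θ) = fun θ => D e f θ + D e g θ := by
  funext θ
  unfold D
  rw [fderiv_fun_add (hf.differentiable (by norm_num) θ) (hg.differentiable (by norm_num) θ)]
  rfl

theorem RGC_D_mul {f g : E → ℝ} (hf : ContDiff ℝ 1 f) (hg : ContDiff ℝ 1 g) (e : E) :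
    D e (fun θ => f θ * g θ) = fun θ => f θ * D e g θ + g θ * D e f θ := by
  funext θ
  unfold D
  rw [fderiv_fun_mul (hf.differentiable (by norm_num) θ) (hg.differentiable (by norm_num) θ)]
  rfl

theorem RGC_D_cd {f : E → ℝ} (hf : ContDiff ℝ 2 f) (e : E) : ContDiff ℝ 1 (D e f) := by
  have h2 : ContDiff ℝ 1 (fderiv ℝ f) := hf.fderiv_right (by norm_num)
  exact h2.clm_apply contDiff_const

theorem RGC_DD_add {f g : E → ℝ} (hf : ContDiff ℝ 2 f) (hg : ContDiff ℝ 2 g) (e θ : E) :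
    D e (D e (fun θ => f θ + g θ)) θ = D e (D e f) θ + D e (D e g) θ := by
  rw [RGC_D_add hf hg e, RGC_D_add' (RGC_D_cd hf e) (RGC_D_cd hg e) e]

theorem RGC_DD_mul {f g : E → ℝ} (hf : ContDiff ℝ 2 f) (hg : ContDiff ℝ 2 g) (e θ : E) :
    D e (D e (fun θ => f θ * g θ)) θ =
      f θ * D e (D e g) θ + g θ * D e (D e f) θ + 2 * (D e f θ * D e g θ) := by
  have hf1 : ContDiff ℝ 1 f := hf.of_le (by norm_num)
  have hg1 : ContDiff ℝ 1 g := hg.of_le (by norm_num)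
  rw [RGC_D_mul hf1 hg1 e,
    RGC_D_add' (hf1.mul (RGC_D_cd hg e)) (hg1.mul (RGC_D_cd hf e)) e,
    RGC_D_mul hf1 (RGC_D_cd hg e) e, RGC_D_mul hg1 (RGC_D_cd hf e) e]
  ring

end calcu

section last

variable {E : Type} [NormedAddCommGroup E] [InnerProductSpace ℝ E]
    [FiniteDimensional ℝ E] [MeasurableSpace E] [BorelSpace E]

theorem RGC_two {G : ℝ → E → ℝ} (h : RG G) {s : ℝ} (hs : 0 < s) : ∃ A B : ℝ, 0 ≤ A ∧
    ∀ k ≤ 2, ∀ θ : E, ‖iteratedFDeriv ℝ k (Function.uncurry G) (s, θ)‖ ≤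
      A * Real.exp (B * ‖θ‖) := by
  obtain ⟨A, B, hA, hB, hAB⟩ := RGC_growth h.growth s
  exact ⟨A, B, hA, fun k hk θ => hAB k hk s ⟨hs, le_rfl⟩ θ⟩

theorem RGC_bil {V : Type*} [NormedAddCommGroup V] [NormedSpace ℝ V]
    (T : V →L[ℝ] V →L[ℝ] ℝ) (v : V) {a c : ℝ} (hT : ‖T‖ ≤ a) (hv : ‖v‖ ≤ c) (ha : 0 ≤ a) :
    ‖T v v‖ ≤ a * c * c := by
  have h1 : ‖T v‖ ≤ a * c :=
    (T.le_opNorm v).trans (mul_le_mul hT hv (norm_nonneg _) ha)
  exact ((T v).le_opNorm v).trans (mul_le_mul h1 hv (norm_nonneg _) ((norm_nonneg _).trans h1))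

theorem RGC_six {F : ℝ → E → ℝ} (hF : RG F) {s : ℝ} (hs : 0 < s) :
    GC (F s) ∧ ContDiff ℝ 2 (F s) ∧ Gr (fun θ => ‖fderiv ℝ (F s) θ‖) ∧
      ∀ e : E, GC (fun θ => D e (D e (F s)) θ) := by
  obtain ⟨A, B, hA, hAB⟩ := RGC_two hF hs
  have hsl := RGC_slice hF.smooth hs
  refine ⟨⟨hsl.continuous, A, B, fun θ => ?_⟩, hsl, ⟨A, B, fun θ => ?_⟩, fun e =>
    ⟨RGC_DD_cont hF.smooth hs e, A * ‖e‖ ^ 2, B, fun θ => ?_⟩⟩
  · have h1 := hAB 0 (by norm_num) θ
    rw [norm_iteratedFDeriv_zero] at h1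
    exact h1
  · have h1 := hAB 1 (by norm_num) θ
    rw [norm_iteratedFDeriv_one] at h1
    rw [abs_of_nonneg (norm_nonneg _)]
    exact (RGC_fderiv_le hF.smooth hs θ).trans h1
  · have h1 := hAB 2 le_rfl θ
    rw [← norm_iteratedFDeriv_fderiv, norm_iteratedFDeriv_one] at h1
    show |D e (D e (F s)) θ| ≤ _
    rw [RGC_DD hF.smooth hs θ e, ← Real.norm_eq_abs]
    have h2 : ‖((0 : ℝ), e)‖ ≤ ‖e‖ := by
      rw [Prod.norm_def]
      simp
    have h3 : 0 ≤ A * Real.exp (B * ‖θ‖) := mul_nonneg hA (Real.exp_pos _).le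
    refine (RGC_bil _ _ h1 h2 h3).trans (le_of_eq ?_)
    ring

theorem rgc_thm (E : Type) [NormedAddCommGroup E] [InnerProductSpace ℝ E]
    [FiniteDimensional ℝ E] [MeasurableSpace E] [BorelSpace E] : RGCStmt E := by
  refine ⟨?_, ?_, ?_, ?_, ?_, ?_, ?_⟩
  · intro c
    have h1 : Function.uncurry (fun (_ : ℝ) (_ : E) => c) = fun _ : ℝ × E => c := by
      funext p
      rfl
    refine ⟨by rw [h1]; exact contDiffOn_const, by rw [h1]; exact continuousOn_const, ?_⟩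
    intro S
    refine ⟨|c|, 0, fun k hk s hs θ => ?_⟩
    rw [h1, zero_mul, Real.exp_zero, mul_one]
    rcases Nat.eq_zero_or_pos k with hk0 | hk0
    · subst hk0
      rw [norm_iteratedFDeriv_zero]
      exact le_rfl
    · rw [iteratedFDeriv_const_of_ne (by omega)]
      simp
  · intro F G hF hG
    refine ⟨hF.smooth.add hG.smooth, hF.cont.add hG.cont, fun S => ?_⟩
    obtain ⟨A, B, hA, hB, hAB⟩ := RGC_growth hF.growth S
    obtain ⟨A', B', hA', hB', hAB'⟩ := RGC_growth hG.growth S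
    exact ⟨A + A', B + B', fun k hk s hs θ =>
      RGC_add_growth hF.smooth hG.smooth hk hs.1 θ hA hB hA' hB' (hAB k hk s hs θ)
        (hAB' k hk s hs θ)⟩
  · intro F G hF hG
    refine ⟨hF.smooth.mul hG.smooth, hF.cont.mul hG.cont, fun S => ?_⟩
    obtain ⟨A, B, hA, hB, hAB⟩ := RGC_growth hF.growth S
    obtain ⟨A', B', hA', hB', hAB'⟩ := RGC_growth hG.growth S
    exact ⟨4 * (A * A'), B + B', fun k hk s hs θ =>
      RGC_mul_growth hF.smooth hG.smooth hk hs.1 θ hA hA' (fun k hk => hAB k hk s hs θ)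
        (fun k hk => hAB' k hk s hs θ)⟩
  · intro F hF h0
    have hne : ∀ p ∈ Ici (0:ℝ) ×ˢ (univ : Set E), Function.uncurry F p ≠ 0 := by
      intro p hp
      have := h0 p.1 p.2 hp.1
      exact ne_of_gt (lt_of_lt_of_le zero_lt_one this)
    refine ⟨?_, hF.cont.inv₀ hne, fun S => ?_⟩
    · exact hF.smooth.inv fun p hp => hne p ⟨Set.mem_Ici.2 (le_of_lt (Set.mem_Ioi.1 hp.1)), hp.2⟩
    · obtain ⟨A, B, hA, hB, hAB⟩ := RGC_growth hF.growth S
      exact ⟨4 * (1 + A) ^ 2, 2 * B, fun k hk s hs θ =>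
        RGC_inv_growth hF.smooth h0 hk hs.1 θ hA hB (fun k hk => hAB k hk s hs θ)⟩
  · intro F G U hF hG ι _ b s θ hs
    have f1 := RGC_slice hF.smooth hs
    have g1 := RGC_slice hG.smooth hs
    have f2 := RGC_slice_t hF.smooth hs θ
    have g2 := RGC_slice_t hG.smooth hs θ
    have f3 : ContDiff ℝ 1 (F s) := f1.of_le (by norm_num)
    have g3 : ContDiff ℝ 1 (G s) := g1.of_le (by norm_num)
    constructor
    · have e1 : deriv (fun r => F r θ + G r θ) s =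
          deriv (fun r => F r θ) s + deriv (fun r => G r θ) s := deriv_fun_add f2 g2
      have e2 : ∀ i, D (b i) (fun θ => F s θ + G s θ) θ = D (b i) (F s) θ + D (b i) (G s) θ :=
        fun i => congrFun (RGC_D_add f1 g1 (b i)) θ
      have e3 : ∀ i, D (b i) (D (b i) (fun θ => F s θ + G s θ)) θ =
          D (b i) (D (b i) (F s)) θ + D (b i) (D (b i) (G s)) θ := fun i =>
        RGC_DD_add f1 g1 (b i) θ
      unfold gen
      rw [e1]
      simp only [e2, e3, mul_add, Finset.sum_add_distrib]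
      ring
    · have e1 : deriv (fun r => F r θ * G r θ) s =
          deriv (fun r => F r θ) s * G s θ + F s θ * deriv (fun r => G r θ) s :=
        deriv_fun_mul f2 g2
      have e2 : ∀ i, D (b i) (fun θ => F s θ * G s θ) θ =
          F s θ * D (b i) (G s) θ + G s θ * D (b i) (F s) θ :=
        fun i => congrFun (RGC_D_mul f3 g3 (b i)) θ
      have e3 : ∀ i, D (b i) (D (b i) (fun θ => F s θ * G s θ)) θ =
          F s θ * D (b i) (D (b i) (G s)) θ + G s θ * D (b i) (D (b i) (F s)) θ +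
            2 * (D (b i) (F s) θ * D (b i) (G s) θ) := fun i =>
        RGC_DD_mul f1 g1 (b i) θ
      have e4 : (∑ i, pm U s θ (li (b i)) * (F s θ * D (b i) (G s) θ + G s θ * D (b i) (F s) θ)) =
          F s θ * (∑ i, pm U s θ (li (b i)) * D (b i) (G s) θ) +
            G s θ * (∑ i, pm U s θ (li (b i)) * D (b i) (F s) θ) := by
        rw [Finset.mul_sum, Finset.mul_sum, ← Finset.sum_add_distrib]
        exact Finset.sum_congr rfl fun i _ => by ring
      have e5 : (∑ i, (F s θ * D (b i) (D (b i) (G s)) θ + G s θ * D (b i) (D (b i) (F s)) θ +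
            2 * (D (b i) (F s) θ * D (b i) (G s) θ))) =
          F s θ * (∑ i, D (b i) (D (b i) (G s)) θ) + G s θ * (∑ i, D (b i) (D (b i) (F s)) θ) +
            2 * ∑ i, D (b i) (F s) θ * D (b i) (G s) θ := by
        rw [Finset.mul_sum, Finset.mul_sum, Finset.mul_sum, ← Finset.sum_add_distrib,
          ← Finset.sum_add_distrib]
      unfold gen
      rw [e1]
      simp only [e2, e3]
      rw [e4, e5]
      ring
  · intro F hF s hs
    exact RGC_six hF hs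
  · intro F G hF hFG
    have h1 : EqOn (Function.uncurry G) (Function.uncurry F) (Ici (0:ℝ) ×ˢ (univ : Set E)) := by
      intro p hp
      exact (hFG p.1 p.2 hp.1).symm
    have h2 : RGC_O E ⊆ Ici (0:ℝ) ×ˢ (univ : Set E) := fun p hp =>
      ⟨Set.mem_Ici.2 (le_of_lt (Set.mem_Ioi.1 hp.1)), hp.2⟩
    refine ⟨hF.smooth.congr (h1.mono h2), hF.cont.congr h1, fun S => ?_⟩
    obtain ⟨A, B, hAB⟩ := hF.growth S
    refine ⟨A, B, fun k hk s hs θ => ?_⟩
    have h3 : iteratedFDeriv ℝ k (Function.uncurry G) (s, θ) =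
        iteratedFDeriv ℝ k (Function.uncurry F) (s, θ) := by
      rw [← RGC_within hs.1 k, ← RGC_within hs.1 k]
      exact iteratedFDerivWithin_congr (h1.mono h2) (RGC_mem hs.1) k
    rw [h3]
    exact hAB k hk s hs θ

end last

end Pool.Agent.H73.KG
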